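import Pool.Agent.K1H5.PP.Stm

/-!
Project PP (helper5), piece ONE: elements of augmentation one are not zero divisors in `ℤ[A]`.
-/

set_option autoImplicit false

namespace Pool.Agent.K1H99.PP

open MonoidAlgebra Pool.Agent.K1H5.PP

universe u

theorem uprods (A : Type u) [CommGroup A]
    (h : ∀ (a : A) (n : ℕ), 0 < n → a ^ n = 1 → a = 1) : UniqueProds A := by
  have htf : IsMulTorsionFree A := ⟨by
    intro n hn a b hab
    have hab' : a ^ n = b ^ n := hab
    have h1 : (a / b) ^ n = 1 := by rw [div_pow, hab', div_self']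
    exact div_eq_one.1 (h _ n (Nat.pos_of_ne_zero hn) h1)⟩
  refine ⟨fun {S T} hS hT => ?_⟩
  classical
  set H : Subgroup A := Subgroup.closure ((S ∪ T : Finset A) : Set A) with hH
  have hfg : Group.FG H := (Group.fg_iff_subgroup_fg H).2 ⟨S ∪ T, rfl⟩
  have hfg' : Monoid.FG H := Group.fg_iff_monoid_fg.1 hfg
  have hu : UniqueProds H := inferInstance
  have hSH : ∀ a ∈ S, a ∈ H := fun a ha => Subgroup.subset_closure (by simp [ha])
  have hTH : ∀ a ∈ T, a ∈ H := fun a ha => Subgroup.subset_closure (by simp [ha])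
  have hS' : (S.subtype (· ∈ H)).Nonempty := by
    obtain ⟨a, ha⟩ := hS
    exact ⟨⟨a, hSH a ha⟩, by simp [ha]⟩
  have hT' : (T.subtype (· ∈ H)).Nonempty := by
    obtain ⟨a, ha⟩ := hT
    exact ⟨⟨a, hTH a ha⟩, by simp [ha]⟩
  obtain ⟨a0, ha0, b0, hb0, hu0⟩ := hu.uniqueMul_of_nonempty hS' hT'
  refine ⟨a0, by simpa using ha0, b0, by simpa using hb0, ?_⟩
  intro a b ha hb hab
  have := hu0 (a := ⟨a, hSH a ha⟩) (b := ⟨b, hTH b hb⟩) (by simp [ha]) (by simp [hb])
    (Subtype.ext hab)
  exact ⟨congrArg Subtype.val this.1, congrArg Subtype.val this.2⟩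

theorem pi_pow {A : Type u} [CommGroup A] {p : ℕ} (hp : p.Prime)
    (hA : ∀ a : A, ∃ k : ℕ, a ^ p ^ k = 1) (d : MonoidAlgebra ℤ A)
    (hd : d.coeff.sum (fun _ c => c) = 1) :
    ∃ K : ℕ, (mapRingHom A (Int.castRingHom (ZMod p)) d) ^ p ^ K = 1 := by
  classical
  have : Fact p.Prime := ⟨hp⟩
  have hch : CharP (MonoidAlgebra (ZMod p) A) p :=
    charP_of_injective_algebraMap (algebraMap (ZMod p) (MonoidAlgebra (ZMod p) A)).injective p
  have hex : ExpChar (MonoidAlgebra (ZMod p) A) p := ExpChar.prime hp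
  choose k hk using hA
  refine ⟨d.coeff.support.sup k, ?_⟩
  have h1 : mapRingHom A (Int.castRingHom (ZMod p)) d =
      ∑ a ∈ d.coeff.support, single a ((d.coeff a : ℤ) : ZMod p) := by
    conv_lhs => rw [← d.sum_coeff_single]
    rw [Finsupp.sum, map_sum]
    refine Finset.sum_congr rfl fun a _ => ?_
    rw [mapRingHom_single]
    rfl
  rw [h1, sum_pow_char_pow]
  have h2 : ∀ a ∈ d.coeff.support,
      (single a ((d.coeff a : ℤ) : ZMod p) : MonoidAlgebra (ZMod p) A) ^
        p ^ d.coeff.support.sup k = single 1 ((d.coeff a : ℤ) : ZMod p) := by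
    intro a ha
    rw [single_pow, ZMod.pow_card_pow]
    obtain ⟨j, hj⟩ := Nat.exists_eq_add_of_le (Finset.le_sup (f := k) ha)
    rw [hj, pow_add, pow_mul, hk, one_pow]
  rw [Finset.sum_congr rfl h2]
  have h3 : ∑ a ∈ d.coeff.support,
      (single 1 ((d.coeff a : ℤ) : ZMod p) : MonoidAlgebra (ZMod p) A) =
      single 1 (∑ a ∈ d.coeff.support, ((d.coeff a : ℤ) : ZMod p)) := by
    induction d.coeff.support using Finset.induction_on with
    | empty => simp
    | insert a s ha ih => rw [Finset.sum_insert ha, Finset.sum_insert ha, ih, single_add]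
  rw [h3, ← Int.cast_sum]
  have h4 : ∑ a ∈ d.coeff.support, d.coeff a = 1 := hd
  rw [h4, Int.cast_one, one_def]

theorem div_p {A : Type u} [CommGroup A] (p : ℕ) (x : MonoidAlgebra ℤ A)
    (h : mapRingHom A (Int.castRingHom (ZMod p)) x = 0) :
    ∃ t : MonoidAlgebra ℤ A, x = (p : ℤ) • t := by
  refine ⟨.ofCoeff (x.coeff.mapRange (fun c => c / (p : ℤ)) (by simp)), ?_⟩
  apply coeff_injective
  ext a
  rw [coeff_smul, coeff_ofCoeff, Finsupp.smul_apply, Finsupp.mapRange_apply, smul_eq_mul]
  have h1 : (mapRingHom A (Int.castRingHom (ZMod p)) x).coeff a = ((x.coeff a : ℤ) : ZMod p) :=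
    coeff_mapRingHom _ _ _
  rw [h, coeff_zero, Finsupp.zero_apply] at h1
  rw [Int.mul_ediv_cancel' ((ZMod.intCast_zmod_eq_zero_iff_dvd _ _).1 h1.symm)]

theorem t_ONE : S_ONE.{u} := by
  intro A _ hA d r hd hdr
  obtain ⟨-, hA | ⟨p, hp, hA⟩⟩ := hA
  · have hu := uprods A hA
    rcases mul_eq_zero.1 hdr with h | h
    · rw [h, coeff_zero, Finsupp.sum_zero_index] at hd
      exact absurd hd (by norm_num)
    · exact h
  · obtain ⟨K, hK⟩ := pi_pow hp hA d hd
    have hN : p ^ K ≠ 0 := pow_ne_zero _ hp.ne_zero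
    have hD : d ^ p ^ K * r = 0 := by
      obtain ⟨m, hm⟩ := Nat.exists_eq_succ_of_ne_zero hN
      rw [hm, pow_succ, mul_assoc, hdr, mul_zero]
    have key : ∀ n : ℕ, ∀ s : MonoidAlgebra ℤ A, d ^ p ^ K * s = 0 → ∀ a,
        (s.coeff a).natAbs ≤ n → s.coeff a = 0 := by
      intro n
      induction n with
      | zero =>
        intro s _ a ha
        exact Int.natAbs_eq_zero.1 (Nat.le_zero.1 ha)
      | succ n ih =>
        intro s hs a ha
        have h1 : mapRingHom A (Int.castRingHom (ZMod p)) s = 0 := by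
          have h2 := congrArg (mapRingHom A (Int.castRingHom (ZMod p))) hs
          rwa [map_mul, map_pow, hK, one_mul, map_zero] at h2
        obtain ⟨t, rfl⟩ := div_p p s h1
        have hp0 : (p : ℤ) ≠ 0 := by exact_mod_cast hp.ne_zero
        have ht : d ^ p ^ K * t = 0 := by
          rw [mul_smul_comm] at hs
          apply coeff_injective
          ext b
          have h3 := congrArg (fun z : MonoidAlgebra ℤ A => z.coeff b) hs
          simp only [coeff_smul, Finsupp.smul_apply, smul_eq_mul, coeff_zero,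
            Finsupp.zero_apply] at h3
          rw [coeff_zero, Finsupp.zero_apply]
          exact (mul_eq_zero.1 h3).resolve_left hp0
        rw [coeff_smul, Finsupp.smul_apply, smul_eq_mul] at ha ⊢
        rw [Int.natAbs_mul, Int.natAbs_natCast] at ha
        have h4 := ih t ht a (by
          have := Nat.mul_le_mul_right (t.coeff a).natAbs hp.two_le
          omega)
        rw [h4, mul_zero]
    apply coeff_injective
    ext a
    exact key _ r hD a le_rfl

end Pool.Agent.K1H99.PP
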